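import Mathlib

/-! Counting lemma for a square of two different classes of common bases of two matroids:
if all hyperplanes are small then the ground set is large. -/

namespace Pool.Agent.CntH10

open Finset Classical

variable {E : Type*}

/-- common base: `r` elements, independent in both matroids -/
def CB (N1 N2 : Matroid E) (r : ℕ) (A : Finset E) : Prop :=
  A.card = r ∧ N1.Indep (A : Set E) ∧ N2.Indep (A : Set E)

theorem CB.symm {N1 N2 : Matroid E} {r : ℕ} {A : Finset E} (h : CB N1 N2 r A) :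
    CB N2 N1 r A := ⟨h.1, h.2.2, h.2.1⟩

/-- the elements outside `C0` in the closure of `I` -/
noncomputable def cl [Fintype E] (N : Matroid E) (C0 : Finset E) (I : Finset E) : Finset E :=
  univ.filter (fun e => e ∉ C0 ∧ e ∈ N.closure (I : Set E))

theorem mem_cl [Fintype E] {N : Matroid E} {C0 I : Finset E} {e : E} :
    e ∈ cl N C0 I ↔ e ∉ C0 ∧ e ∈ N.closure (I : Set E) := by
  simp [cl]

theorem indep_insert {N : Matroid E} (hN : N.E = Set.univ) {I : Finset E}
    (hI : N.Indep (I : Set E)) {e : E} (he : e ∉ N.closure (I : Set E)) :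
    N.Indep ((insert e I : Finset E) : Set E) ∧ e ∉ I := by
  have h := (hI.notMem_closure_iff (e := e) (by rw [hN]; trivial)).1 he
  refine ⟨?_, ?_⟩
  · rw [Finset.coe_insert]; exact h.1
  · intro hh; exact h.2 (by exact_mod_cast hh)

theorem notMem_closure {N : Matroid E} (hN : N.E = Set.univ) {I : Finset E} {e : E}
    (hI : N.Indep ((insert e I : Finset E) : Set E)) (he : e ∉ I) :
    e ∉ N.closure (I : Set E) := by
  have h0 : N.Indep (I : Set E) :=
    hI.subset (by rw [Finset.coe_insert]; exact Set.subset_insert _ _)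
  refine (h0.notMem_closure_iff (e := e) (by rw [hN]; trivial)).2 ⟨?_, ?_⟩
  · rw [← Finset.coe_insert]; exact hI
  · intro hh; exact he (by exact_mod_cast hh)

theorem closure_eq {N : Matroid E} {G : Finset E} {x y : E}
    (hx : x ∉ N.closure (G : Set E)) (h : x ∈ N.closure ((insert y G : Finset E) : Set E)) :
    N.closure ((insert x G : Finset E) : Set E) = N.closure ((insert y G : Finset E) : Set E) := by
  rw [Finset.coe_insert] at h ⊢
  rw [Finset.coe_insert]
  exact Matroid.closure_insert_congr ⟨h, hx⟩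

theorem mem_closure_self {N : Matroid E} (hN : N.E = Set.univ) {I : Finset E} {e : E}
    (he : e ∈ I) : e ∈ N.closure (I : Set E) :=
  N.subset_closure (I : Set E) (by rw [hN]; exact Set.subset_univ _) (by exact_mod_cast he)

/-- common bases `G + x + y` -/
theorem cb_iff {N1 N2 : Matroid E} (hN1 : N1.E = Set.univ) (hN2 : N2.E = Set.univ) {r : ℕ}
    {G : Finset E} (hG : G.card + 2 = r) (hI1 : N1.Indep (G : Set E))
    (hI2 : N2.Indep (G : Set E)) (x y : E) :
    CB N1 N2 r (insert y (insert x G)) ↔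
      (x ∉ N1.closure (G : Set E) ∧ y ∉ N1.closure ((insert x G : Finset E) : Set E)) ∧
      (x ∉ N2.closure (G : Set E) ∧ y ∉ N2.closure ((insert x G : Finset E) : Set E)) := by
  constructor
  · rintro ⟨hc, h1, h2⟩
    have hx : x ∉ G := by
      intro hx
      rw [Finset.insert_eq_of_mem hx] at hc
      have := Finset.card_insert_le y G
      omega
    have hy : y ∉ insert x G := by
      intro hy
      rw [Finset.insert_eq_of_mem hy] at hc
      have := Finset.card_insert_le x G
      omega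
    have h1' : N1.Indep ((insert x G : Finset E) : Set E) :=
      h1.subset (by rw [Finset.coe_insert y]; exact Set.subset_insert _ _)
    have h2' : N2.Indep ((insert x G : Finset E) : Set E) :=
      h2.subset (by rw [Finset.coe_insert y]; exact Set.subset_insert _ _)
    exact ⟨⟨notMem_closure hN1 h1' hx, notMem_closure hN1 h1 hy⟩,
      ⟨notMem_closure hN2 h2' hx, notMem_closure hN2 h2 hy⟩⟩
  · rintro ⟨⟨h1, h2⟩, ⟨h3, h4⟩⟩
    obtain ⟨i1, hx⟩ := indep_insert hN1 hI1 h1
    obtain ⟨i2, hy⟩ := indep_insert hN1 i1 h2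
    obtain ⟨i3, _⟩ := indep_insert hN2 hI2 h3
    obtain ⟨i4, _⟩ := indep_insert hN2 i3 h4
    refine ⟨?_, i2, i4⟩
    rw [Finset.card_insert_of_notMem hy, Finset.card_insert_of_notMem hx]
    omega

/-- one half of the square: what is generic in `N1` is a loop in `N2` -/
theorem half {N1 N2 : Matroid E} (hN1 : N1.E = Set.univ) (hN2 : N2.E = Set.univ) {r : ℕ}
    {G : Finset E} (hG : G.card + 2 = r) (hI1 : N1.Indep (G : Set E))
    (hI2 : N2.Indep (G : Set E)) (P : Finset E → Prop)
    (hst : ∀ x y z : E, CB N1 N2 r (insert y (insert x G)) → CB N1 N2 r (insert z (insert x G)) →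
      P (insert y (insert x G)) → P (insert z (insert x G)))
    {a1 a2 d1 d2 : E} (hA : CB N1 N2 r (insert a2 (insert a1 G)))
    (hD : CB N1 N2 r (insert d2 (insert d1 G))) (hPA : P (insert a2 (insert a1 G)))
    (hPD : ¬ P (insert d2 (insert d1 G)))
    (h1 : d1 ∈ N1.closure ((insert a1 G : Finset E) : Set E))
    (h2 : d1 ∈ N2.closure ((insert a2 G : Finset E) : Set E)) (e : E)
    (he1 : e ∉ N1.closure ((insert a1 G : Finset E) : Set E))
    (he2 : e ∉ N1.closure ((insert a2 G : Finset E) : Set E)) :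
    e ∈ N2.closure (G : Set E) := by
  have cbi := cb_iff hN1 hN2 hG hI1 hI2
  obtain ⟨⟨a1a, a2a⟩, ⟨a1b, a2b⟩⟩ := (cbi a1 a2).1 hA
  have hA' : CB N1 N2 r (insert a1 (insert a2 G)) := by rw [Finset.insert_comm]; exact hA
  obtain ⟨⟨a2c, a1c⟩, ⟨a2d, a1d⟩⟩ := (cbi a2 a1).1 hA'
  obtain ⟨⟨d1a, d2a⟩, ⟨d1b, d2b⟩⟩ := (cbi d1 d2).1 hD
  have hD' : CB N1 N2 r (insert d1 (insert d2 G)) := by rw [Finset.insert_comm]; exact hD
  obtain ⟨⟨d2c, d1c⟩, ⟨d2d, d1d⟩⟩ := (cbi d2 d1).1 hD'
  have e1 := closure_eq d1a h1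
  have e2 := closure_eq d1b h2
  have swap : ∀ x y : E, (insert y (insert x G)) = (insert x (insert y G)) := fun x y =>
    Finset.insert_comm y x G
  -- no `G + a_i + d_j` is a common base
  have no1 : ¬ CB N1 N2 r (insert d2 (insert a1 G)) := by
    intro h
    have p1 := hst a1 a2 d2 hA h hPA
    have h' := h
    rw [swap] at h' p1
    have p2 := hst d2 a1 d1 h' hD' p1
    rw [swap] at p2
    exact hPD p2
  have no2 : ¬ CB N1 N2 r (insert d2 (insert a2 G)) := by
    intro h
    have hPA' := hPA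
    rw [swap] at hPA'
    have p1 := hst a2 a1 d2 hA' h hPA'
    have h' := h
    rw [swap] at h' p1
    have p2 := hst d2 a2 d1 h' hD' p1
    rw [swap] at p2
    exact hPD p2
  have h3 : d2 ∈ N2.closure ((insert a1 G : Finset E) : Set E) := by
    by_contra hc
    by_cases hc1 : d2 ∈ N1.closure ((insert a1 G : Finset E) : Set E)
    · rw [← e1] at hc1; exact d2a hc1
    · exact no1 ((cbi a1 d2).2 ⟨⟨a1a, hc1⟩, ⟨a1b, hc⟩⟩)
  have h4 : d2 ∈ N1.closure ((insert a2 G : Finset E) : Set E) := by
    by_contra hc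
    by_cases hc1 : d2 ∈ N2.closure ((insert a2 G : Finset E) : Set E)
    · rw [← e2] at hc1; exact d2b hc1
    · exact no2 ((cbi a2 d2).2 ⟨⟨a2c, hc⟩, ⟨a2d, hc1⟩⟩)
  have e3 := closure_eq d2d h3
  have e4 := closure_eq d2c h4
  by_contra hcon
  by_cases hc : e ∈ N2.closure ((insert a2 G : Finset E) : Set E)
  · have e5 := closure_eq hcon hc
    have hc' : e ∉ N2.closure ((insert a1 G : Finset E) : Set E) := by
      intro hh
      have e6 := closure_eq hcon hh
      rw [e5] at e6
      apply a2b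
      rw [← e6]
      exact mem_closure_self hN2 (Finset.mem_insert_self _ _)
    have q1 : CB N1 N2 r (insert e (insert a1 G)) := (cbi a1 e).2 ⟨⟨a1a, he1⟩, ⟨a1b, hc'⟩⟩
    have q2 : CB N1 N2 r (insert e (insert d2 G)) :=
      (cbi d2 e).2 ⟨⟨d2c, by rw [e4]; exact he2⟩, ⟨d2d, by rw [e3]; exact hc'⟩⟩
    have p1 := hst a1 a2 e hA q1 hPA
    rw [swap] at q1 p1
    have q2' := q2
    rw [swap] at q2'
    have p2 := hst e a1 d2 q1 q2' p1
    rw [swap] at p2
    have p3 := hst d2 e d1 q2 hD' p2
    rw [swap] at p3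
    exact hPD p3
  · have q1 : CB N1 N2 r (insert e (insert a2 G)) := (cbi a2 e).2 ⟨⟨a2c, he2⟩, ⟨a2d, hc⟩⟩
    have q2 : CB N1 N2 r (insert e (insert d1 G)) :=
      (cbi d1 e).2 ⟨⟨d1a, by rw [e1]; exact he1⟩, ⟨d1b, by rw [e2]; exact hc⟩⟩
    have hPA' := hPA
    rw [swap] at hPA'
    have p1 := hst a2 a1 e hA' q1 hPA'
    rw [swap] at q1 p1
    have q2' := q2
    rw [swap] at q2'
    have p2 := hst e a2 d1 q1 q2' p1
    rw [swap] at p2
    exact hPD (hst d1 e d2 q2 hD p2)

/-- counting on one side -/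
theorem side [Fintype E] {N1 N2 : Matroid E} (hN2 : N2.E = Set.univ) {r k : ℕ}
    {C0 G : Finset E} (hG : G.card + 2 = r) (hr : C0.card + k = r) (hC : C0 ⊆ G)
    {a1 a2 : E}
    (h : ∀ e : E, e ∉ N1.closure ((insert a1 G : Finset E) : Set E) →
      e ∉ N1.closure ((insert a2 G : Finset E) : Set E) → e ∈ N2.closure (G : Set E))
    (hG1 : N1.E = Set.univ)
    (b1 : (cl N1 C0 (insert a1 G)).card + 2 * k + C0.card ≤ Fintype.card E)
    (b2 : (cl N1 C0 (insert a2 G)).card + 2 * k + C0.card ≤ Fintype.card E) :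
    (cl N1 C0 G).card + 5 * k + C0.card ≤ (cl N2 C0 G).card + Fintype.card E + 2 := by
  set F1 := cl N1 C0 (insert a1 G) with hF1
  set F2 := cl N1 C0 (insert a2 G) with hF2
  set Q : Finset E := univ.filter (fun e => e ∉ C0 ∧
    e ∉ N1.closure ((insert a1 G : Finset E) : Set E) ∧
    e ∉ N1.closure ((insert a2 G : Finset E) : Set E)) with hQ
  have c1 := Finset.card_union_add_card_inter F1 F2
  have c2 : (cl N1 C0 G).card ≤ (F1 ∩ F2).card := by
    apply Finset.card_le_card
    intro e he
    rw [mem_cl] at he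
    rw [Finset.mem_inter, hF1, hF2, mem_cl, mem_cl]
    refine ⟨⟨he.1, ?_⟩, ⟨he.1, ?_⟩⟩
    · exact N1.closure_subset_closure (by rw [Finset.coe_insert]; exact Set.subset_insert _ _) he.2
    · exact N1.closure_subset_closure (by rw [Finset.coe_insert]; exact Set.subset_insert _ _) he.2
  have c3 : Fintype.card E ≤ (F1 ∪ F2).card + Q.card + C0.card := by
    have : (univ : Finset E) ⊆ ((F1 ∪ F2) ∪ Q) ∪ C0 := by
      intro e _
      by_cases he0 : e ∈ C0
      · exact Finset.mem_union_right _ he0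
      · apply Finset.mem_union_left
        by_cases h1 : e ∈ N1.closure ((insert a1 G : Finset E) : Set E)
        · apply Finset.mem_union_left; apply Finset.mem_union_left
          rw [hF1, mem_cl]; exact ⟨he0, h1⟩
        · by_cases h2 : e ∈ N1.closure ((insert a2 G : Finset E) : Set E)
          · apply Finset.mem_union_left; apply Finset.mem_union_right
            rw [hF2, mem_cl]; exact ⟨he0, h2⟩
          · apply Finset.mem_union_right
            rw [hQ, Finset.mem_filter]; exact ⟨Finset.mem_univ _, he0, h1, h2⟩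
    have h0 := Finset.card_le_card this
    rw [Finset.card_univ] at h0
    have u1 := Finset.card_union_le ((F1 ∪ F2) ∪ Q) C0
    have u2 := Finset.card_union_le (F1 ∪ F2) Q
    omega
  have c4 : Q.card + (G \ C0).card ≤ (cl N2 C0 G).card := by
    rw [← Finset.card_union_of_disjoint]
    · apply Finset.card_le_card
      intro e he
      rw [mem_cl]
      rcases Finset.mem_union.1 he with he | he
      · rw [hQ, Finset.mem_filter] at he
        exact ⟨he.2.1, h e he.2.2.1 he.2.2.2⟩
      · rw [Finset.mem_sdiff] at he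
        exact ⟨he.2, mem_closure_self hN2 he.1⟩
    · rw [Finset.disjoint_left]
      intro e he1 he2
      rw [hQ, Finset.mem_filter] at he1
      rw [Finset.mem_sdiff] at he2
      exact he1.2.2.1 (mem_closure_self hG1 (Finset.mem_insert_of_mem he2.1))
  have c5 : (G \ C0).card + C0.card = G.card := Finset.card_sdiff_add_card_eq_card hC
  omega

/-- **Counting lemma.** `P` is closed under single exchanges among the common bases over `C0`;
`A` has `P`, `A'` has not, and they differ in two elements; all hyperplanes over `C0` of both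
matroids miss at least `2k` elements.  Then there are at least `5k - 2` elements outside `C0`. -/
theorem count [Fintype E] {N1 N2 : Matroid E} (hN1 : N1.E = Set.univ) (hN2 : N2.E = Set.univ)
    {r k : ℕ} {C0 : Finset E} (hr : C0.card + k = r) (P : Finset E → Prop)
    (hP : ∀ A A' : Finset E, C0 ⊆ A → C0 ⊆ A' → CB N1 N2 r A → CB N1 N2 r A' →
      r ≤ (A ∩ A').card + 1 → P A → P A')
    {A A' : Finset E} (hA : CB N1 N2 r A) (hA' : CB N1 N2 r A') (hCA : C0 ⊆ A) (hCA' : C0 ⊆ A')
    (hPA : P A) (hPA' : ¬ P A') (hc : (A ∩ A').card + 2 = r)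
    (h1 : ∀ I : Finset E, C0 ⊆ I → N1.Indep (I : Set E) → I.card + 1 = r →
      (cl N1 C0 I).card + 2 * k + C0.card ≤ Fintype.card E)
    (h2 : ∀ I : Finset E, C0 ⊆ I → N2.Indep (I : Set E) → I.card + 1 = r →
      (cl N2 C0 I).card + 2 * k + C0.card ≤ Fintype.card E) :
    5 * k + C0.card ≤ Fintype.card E + 2 := by
  set G : Finset E := A ∩ A' with hGdef
  have hCG : C0 ⊆ G := Finset.subset_inter hCA hCA'
  have hGA : G ⊆ A := Finset.inter_subset_left
  have hGA' : G ⊆ A' := Finset.inter_subset_right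
  have hI1 : N1.Indep (G : Set E) := hA.2.1.subset (by exact_mod_cast hGA)
  have hI2 : N2.Indep (G : Set E) := hA.2.2.subset (by exact_mod_cast hGA)
  have two : ∀ B : Finset E, G ⊆ B → B.card = r → ∃ x y : E, B = insert y (insert x G) := by
    intro B hB hBc
    have hs : (B \ G).card = 2 := by
      have := Finset.card_sdiff_add_card_eq_card hB
      omega
    obtain ⟨x, y, _, hxy⟩ := Finset.card_eq_two.1 hs
    refine ⟨x, y, ?_⟩
    ext e
    have he : e ∈ B \ G ↔ e ∈ ({x, y} : Finset E) := by rw [hxy]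
    simp only [Finset.mem_sdiff, Finset.mem_insert, Finset.mem_singleton] at he ⊢
    constructor
    · intro h
      by_cases hg : e ∈ G
      · exact Or.inr (Or.inr hg)
      · rcases he.1 ⟨h, hg⟩ with h | h
        · exact Or.inr (Or.inl h)
        · exact Or.inl h
    · rintro (h | h | h)
      · exact (he.2 (Or.inr h)).1
      · exact (he.2 (Or.inl h)).1
      · exact hB h
  obtain ⟨a1, a2, hAe⟩ := two A hGA hA.1
  obtain ⟨d1, d2, hDe⟩ := two A' hGA' hA'.1
  have sub : ∀ x y : E, C0 ⊆ insert y (insert x G) := fun x y =>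
    hCG.trans ((Finset.subset_insert x G).trans (Finset.subset_insert y _))
  have cbi := cb_iff hN1 hN2 hc hI1 hI2
  have hst : ∀ x y z : E, CB N1 N2 r (insert y (insert x G)) →
      CB N1 N2 r (insert z (insert x G)) →
      P (insert y (insert x G)) → P (insert z (insert x G)) := by
    intro x y z hy hz hp
    refine hP _ _ (sub x y) (sub x z) hy hz ?_ hp
    have hx : x ∉ G := by
      have := ((cbi x y).1 hy).1.1
      intro hx
      exact this (mem_closure_self hN1 hx)
    have : insert x G ⊆ insert y (insert x G) ∩ insert z (insert x G) :=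
      Finset.subset_inter (Finset.subset_insert _ _) (Finset.subset_insert _ _)
    have h0 := Finset.card_le_card this
    rw [Finset.card_insert_of_notMem hx] at h0
    omega
  rw [hAe] at hA hPA
  rw [hDe] at hA' hPA'
  obtain ⟨⟨a1a, a2a⟩, ⟨a1b, a2b⟩⟩ := (cbi a1 a2).1 hA
  have hAs : CB N1 N2 r (insert a1 (insert a2 G)) := by rw [Finset.insert_comm]; exact hA
  have hPAs : P (insert a1 (insert a2 G)) := by rw [Finset.insert_comm]; exact hPA
  obtain ⟨⟨a2c, a1c⟩, ⟨a2d, a1d⟩⟩ := (cbi a2 a1).1 hAs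
  obtain ⟨⟨d1a, d2a⟩, ⟨d1b, d2b⟩⟩ := (cbi d1 d2).1 hA'
  have hDs : CB N1 N2 r (insert d1 (insert d2 G)) := by rw [Finset.insert_comm]; exact hA'
  have no : ∀ x y : E, CB N1 N2 r (insert y (insert x G)) → P (insert y (insert x G)) →
      ¬ CB N1 N2 r (insert d1 (insert x G)) := by
    intro x y hxy hp h
    have p1 := hst x y d1 hxy h hp
    rw [Finset.insert_comm] at p1 h
    exact hPA' (hst d1 x d2 h hA' p1)
  have n1 : d1 ∈ N1.closure ((insert a1 G : Finset E) : Set E) ∨
      d1 ∈ N2.closure ((insert a1 G : Finset E) : Set E) := by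
    by_contra hcon
    push_neg at hcon
    exact no a1 a2 hA hPA ((cbi a1 d1).2 ⟨⟨a1a, hcon.1⟩, ⟨a1b, hcon.2⟩⟩)
  have n2 : d1 ∈ N1.closure ((insert a2 G : Finset E) : Set E) ∨
      d1 ∈ N2.closure ((insert a2 G : Finset E) : Set E) := by
    by_contra hcon
    push_neg at hcon
    exact no a2 a1 hAs hPAs ((cbi a2 d1).2 ⟨⟨a2c, hcon.1⟩, ⟨a2d, hcon.2⟩⟩)
  have m1 : ¬ (d1 ∈ N1.closure ((insert a1 G : Finset E) : Set E) ∧
      d1 ∈ N1.closure ((insert a2 G : Finset E) : Set E)) := by
    rintro ⟨x1, x2⟩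
    have y1 := closure_eq d1a x1
    have y2 := closure_eq d1a x2
    apply a2a
    rw [← y1, y2]
    exact mem_closure_self hN1 (Finset.mem_insert_self _ _)
  have m2 : ¬ (d1 ∈ N2.closure ((insert a1 G : Finset E) : Set E) ∧
      d1 ∈ N2.closure ((insert a2 G : Finset E) : Set E)) := by
    rintro ⟨x1, x2⟩
    have y1 := closure_eq d1b x1
    have y2 := closure_eq d1b x2
    apply a2b
    rw [← y1, y2]
    exact mem_closure_self hN2 (Finset.mem_insert_self _ _)
  -- the two halves
  have both : (∀ e : E, e ∉ N1.closure ((insert a1 G : Finset E) : Set E) →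
        e ∉ N1.closure ((insert a2 G : Finset E) : Set E) → e ∈ N2.closure (G : Set E)) ∧
      (∀ e : E, e ∉ N2.closure ((insert a1 G : Finset E) : Set E) →
        e ∉ N2.closure ((insert a2 G : Finset E) : Set E) → e ∈ N1.closure (G : Set E)) := by
    have hst' : ∀ x y z : E, CB N2 N1 r (insert y (insert x G)) →
        CB N2 N1 r (insert z (insert x G)) →
        P (insert y (insert x G)) → P (insert z (insert x G)) :=
      fun x y z hy hz hp => hst x y z hy.symm hz.symm hp
    rcases n1 with x1 | x1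
    · have x2 : d1 ∈ N2.closure ((insert a2 G : Finset E) : Set E) := by
        rcases n2 with x2 | x2
        · exact absurd ⟨x1, x2⟩ m1
        · exact x2
      refine ⟨fun e u1 u2 => half hN1 hN2 hc hI1 hI2 P hst hA hA' hPA hPA' x1 x2 e u1 u2,
        fun e u1 u2 => half hN2 hN1 hc hI2 hI1 P hst' hAs.symm hA'.symm hPAs hPA' x2 x1 e u2 u1⟩
    · have x2 : d1 ∈ N1.closure ((insert a2 G : Finset E) : Set E) := by
        rcases n2 with x2 | x2
        · exact x2
        · exact absurd ⟨x1, x2⟩ m2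
      refine ⟨fun e u1 u2 => half hN1 hN2 hc hI1 hI2 P hst hAs hA' hPAs hPA' x2 x1 e u2 u1,
        fun e u1 u2 => half hN2 hN1 hc hI2 hI1 P hst' hA.symm hA'.symm hPA hPA' x1 x2 e u1 u2⟩
  have cG : ∀ x : E, x ∉ G → (insert x G).card + 1 = r := by
    intro x hx
    rw [Finset.card_insert_of_notMem hx]
    omega
  have sG : ∀ x : E, C0 ⊆ insert x G := fun x => hCG.trans (Finset.subset_insert _ _)
  have i11 := indep_insert hN1 hI1 a1a
  have i12 := indep_insert hN1 hI1 a2c
  have i21 := indep_insert hN2 hI2 a1b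
  have i22 := indep_insert hN2 hI2 a2d
  have s1 := side (N1 := N1) (N2 := N2) hN2 hc hr hCG both.1 hN1
    (h1 _ (sG a1) i11.1 (cG a1 i11.2)) (h1 _ (sG a2) i12.1 (cG a2 i12.2))
  have s2 := side (N1 := N2) (N2 := N1) hN1 hc hr hCG both.2 hN2
    (h2 _ (sG a1) i21.1 (cG a1 i21.2)) (h2 _ (sG a2) i22.1 (cG a2 i22.2))
  omega

end Pool.Agent.CntH10
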