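import Pool.Agent.Cnt_h10.Count

/-! The square in the form of four small flats. -/

namespace Pool.Agent.CntH10

open Finset Classical

variable {E : Type*}

/-- a set of `r` elements inside the closure of `r - 1` elements is dependent -/
theorem dep_of_subset [Fintype E] {N : Matroid E} {r : ℕ} {I A : Finset E}
    (hIc : I.card + 1 = r) (hA : A ⊆ univ.filter (fun e => e ∈ N.closure (I : Set E)))
    (hAc : A.card = r) : ¬ N.Indep (A : Set E) := by
  intro h
  have h1 : (A : Set E) ⊆ N.closure (I : Set E) := by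
    intro e he
    have := hA (by exact_mod_cast he)
    rw [Finset.mem_filter] at this
    exact this.2
  have h2 := h.encard_le_eRk_of_subset h1
  rw [Matroid.eRk_closure_eq] at h2
  have h3 := N.eRk_le_encard (I : Set E)
  have h4 := h2.trans h3
  rw [Set.encard_coe_eq_coe_finsetCard, Set.encard_coe_eq_coe_finsetCard] at h4
  have h5 : A.card ≤ I.card := by exact_mod_cast h4
  omega

/-- **Geometry of the square.** -/
theorem geo [Fintype E] {N1 N2 : Matroid E} (hN1 : N1.E = Set.univ) (hN2 : N2.E = Set.univ)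
    {r : ℕ} {C0 : Finset E} (P : Finset E → Prop)
    (hP : ∀ A A' : Finset E, C0 ⊆ A → C0 ⊆ A' → CB N1 N2 r A → CB N1 N2 r A' →
      r ≤ (A ∩ A').card + 1 → P A → P A')
    {A A' : Finset E} (hA : CB N1 N2 r A) (hA' : CB N1 N2 r A') (hCA : C0 ⊆ A) (hCA' : C0 ⊆ A')
    (hPA : P A) (hPA' : ¬ P A') (hc : (A ∩ A').card + 2 = r) :
    ∃ F1 F2 G1 G2 : Finset E, (A ∩ A') ⊆ F1 ∧ (A ∩ A') ⊆ F2 ∧ (A ∩ A') ⊆ G1 ∧ (A ∩ A') ⊆ G2 ∧
      (∀ B : Finset E, B ⊆ F1 → B.card = r → ¬ N1.Indep (B : Set E)) ∧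
      (∀ B : Finset E, B ⊆ F2 → B.card = r → ¬ N1.Indep (B : Set E)) ∧
      (∀ B : Finset E, B ⊆ G1 → B.card = r → ¬ N2.Indep (B : Set E)) ∧
      (∀ B : Finset E, B ⊆ G2 → B.card = r → ¬ N2.Indep (B : Set E)) ∧
      ∀ e : E, (e ∈ F1 ∧ e ∈ F2) ∨ (e ∈ G1 ∧ e ∈ G2) ∨ ((e ∈ F1 ∨ e ∈ F2) ∧ (e ∈ G1 ∨ e ∈ G2)) := by
  set G : Finset E := A ∩ A' with hGdef
  have hCG : C0 ⊆ G := Finset.subset_inter hCA hCA'
  have hGA : G ⊆ A := Finset.inter_subset_left
  have hGA' : G ⊆ A' := Finset.inter_subset_right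
  have hI1 : N1.Indep (G : Set E) := hA.2.1.subset (by exact_mod_cast hGA)
  have hI2 : N2.Indep (G : Set E) := hA.2.2.subset (by exact_mod_cast hGA)
  have two : ∀ B : Finset E, G ⊆ B → B.card = r → ∃ x y : E, B = insert y (insert x G) := by
    intro B hB hBc
    have hs : (B \ G).card = 2 := by
      have := Finset.card_sdiff_add_card_eq_card hB
      omega
    obtain ⟨x, y, _, hxy⟩ := Finset.card_eq_two.1 hs
    refine ⟨x, y, ?_⟩
    ext e
    have he : e ∈ B \ G ↔ e ∈ ({x, y} : Finset E) := by rw [hxy]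
    simp only [Finset.mem_sdiff, Finset.mem_insert, Finset.mem_singleton] at he ⊢
    constructor
    · intro h
      by_cases hg : e ∈ G
      · exact Or.inr (Or.inr hg)
      · rcases he.1 ⟨h, hg⟩ with h | h
        · exact Or.inr (Or.inl h)
        · exact Or.inl h
    · rintro (h | h | h)
      · exact (he.2 (Or.inr h)).1
      · exact (he.2 (Or.inl h)).1
      · exact hB h
  obtain ⟨a1, a2, hAe⟩ := two A hGA hA.1
  obtain ⟨d1, d2, hDe⟩ := two A' hGA' hA'.1
  have sub : ∀ x y : E, C0 ⊆ insert y (insert x G) := fun x y =>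
    hCG.trans ((Finset.subset_insert x G).trans (Finset.subset_insert y _))
  have cbi := cb_iff hN1 hN2 hc hI1 hI2
  have hst : ∀ x y z : E, CB N1 N2 r (insert y (insert x G)) →
      CB N1 N2 r (insert z (insert x G)) →
      P (insert y (insert x G)) → P (insert z (insert x G)) := by
    intro x y z hy hz hp
    refine hP _ _ (sub x y) (sub x z) hy hz ?_ hp
    have hx : x ∉ G := by
      have := ((cbi x y).1 hy).1.1
      intro hx
      exact this (mem_closure_self hN1 hx)
    have : insert x G ⊆ insert y (insert x G) ∩ insert z (insert x G) :=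
      Finset.subset_inter (Finset.subset_insert _ _) (Finset.subset_insert _ _)
    have h0 := Finset.card_le_card this
    rw [Finset.card_insert_of_notMem hx] at h0
    omega
  rw [hAe] at hA hPA
  rw [hDe] at hA' hPA'
  obtain ⟨⟨a1a, a2a⟩, ⟨a1b, a2b⟩⟩ := (cbi a1 a2).1 hA
  have hAs : CB N1 N2 r (insert a1 (insert a2 G)) := by rw [Finset.insert_comm]; exact hA
  have hPAs : P (insert a1 (insert a2 G)) := by rw [Finset.insert_comm]; exact hPA
  obtain ⟨⟨a2c, a1c⟩, ⟨a2d, a1d⟩⟩ := (cbi a2 a1).1 hAs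
  obtain ⟨⟨d1a, d2a⟩, ⟨d1b, d2b⟩⟩ := (cbi d1 d2).1 hA'
  have hDs : CB N1 N2 r (insert d1 (insert d2 G)) := by rw [Finset.insert_comm]; exact hA'
  have no : ∀ x y : E, CB N1 N2 r (insert y (insert x G)) → P (insert y (insert x G)) →
      ¬ CB N1 N2 r (insert d1 (insert x G)) := by
    intro x y hxy hp h
    have p1 := hst x y d1 hxy h hp
    rw [Finset.insert_comm] at p1 h
    exact hPA' (hst d1 x d2 h hA' p1)
  have n1 : d1 ∈ N1.closure ((insert a1 G : Finset E) : Set E) ∨
      d1 ∈ N2.closure ((insert a1 G : Finset E) : Set E) := by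
    by_contra hcon
    push_neg at hcon
    exact no a1 a2 hA hPA ((cbi a1 d1).2 ⟨⟨a1a, hcon.1⟩, ⟨a1b, hcon.2⟩⟩)
  have n2 : d1 ∈ N1.closure ((insert a2 G : Finset E) : Set E) ∨
      d1 ∈ N2.closure ((insert a2 G : Finset E) : Set E) := by
    by_contra hcon
    push_neg at hcon
    exact no a2 a1 hAs hPAs ((cbi a2 d1).2 ⟨⟨a2c, hcon.1⟩, ⟨a2d, hcon.2⟩⟩)
  have m1 : ¬ (d1 ∈ N1.closure ((insert a1 G : Finset E) : Set E) ∧
      d1 ∈ N1.closure ((insert a2 G : Finset E) : Set E)) := by
    rintro ⟨x1, x2⟩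
    have y1 := closure_eq d1a x1
    have y2 := closure_eq d1a x2
    apply a2a
    rw [← y1, y2]
    exact mem_closure_self hN1 (Finset.mem_insert_self _ _)
  have m2 : ¬ (d1 ∈ N2.closure ((insert a1 G : Finset E) : Set E) ∧
      d1 ∈ N2.closure ((insert a2 G : Finset E) : Set E)) := by
    rintro ⟨x1, x2⟩
    have y1 := closure_eq d1b x1
    have y2 := closure_eq d1b x2
    apply a2b
    rw [← y1, y2]
    exact mem_closure_self hN2 (Finset.mem_insert_self _ _)
  -- the two halves
  have both : (∀ e : E, e ∉ N1.closure ((insert a1 G : Finset E) : Set E) →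
        e ∉ N1.closure ((insert a2 G : Finset E) : Set E) → e ∈ N2.closure (G : Set E)) ∧
      (∀ e : E, e ∉ N2.closure ((insert a1 G : Finset E) : Set E) →
        e ∉ N2.closure ((insert a2 G : Finset E) : Set E) → e ∈ N1.closure (G : Set E)) := by
    have hst' : ∀ x y z : E, CB N2 N1 r (insert y (insert x G)) →
        CB N2 N1 r (insert z (insert x G)) →
        P (insert y (insert x G)) → P (insert z (insert x G)) :=
      fun x y z hy hz hp => hst x y z hy.symm hz.symm hp
    rcases n1 with x1 | x1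
    · have x2 : d1 ∈ N2.closure ((insert a2 G : Finset E) : Set E) := by
        rcases n2 with x2 | x2
        · exact absurd ⟨x1, x2⟩ m1
        · exact x2
      refine ⟨fun e u1 u2 => half hN1 hN2 hc hI1 hI2 P hst hA hA' hPA hPA' x1 x2 e u1 u2,
        fun e u1 u2 => half hN2 hN1 hc hI2 hI1 P hst' hAs.symm hA'.symm hPAs hPA' x2 x1 e u2 u1⟩
    · have x2 : d1 ∈ N1.closure ((insert a2 G : Finset E) : Set E) := by
        rcases n2 with x2 | x2
        · exact x2
        · exact absurd ⟨x1, x2⟩ m2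
      refine ⟨fun e u1 u2 => half hN1 hN2 hc hI1 hI2 P hst hAs hA' hPAs hPA' x2 x1 e u2 u1,
        fun e u1 u2 => half hN2 hN1 hc hI2 hI1 P hst' hA.symm hA'.symm hPA hPA' x1 x2 e u1 u2⟩
  have cG : ∀ x : E, x ∉ G → (insert x G).card + 1 = r := by
    intro x hx
    rw [Finset.card_insert_of_notMem hx]
    omega
  have i11 := indep_insert hN1 hI1 a1a
  have i12 := indep_insert hN1 hI1 a2c
  have sub1 : ∀ (N : Matroid E), N.E = Set.univ → ∀ x : E,
      G ⊆ univ.filter (fun e => e ∈ N.closure ((insert x G : Finset E) : Set E)) := by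
    intro N hN x e he
    rw [Finset.mem_filter]
    exact ⟨Finset.mem_univ _, mem_closure_self hN (Finset.mem_insert_of_mem he)⟩
  have up : ∀ (N : Matroid E) (x e : E), e ∈ N.closure (G : Set E) →
      e ∈ N.closure ((insert x G : Finset E) : Set E) := by
    intro N x e he
    exact N.closure_subset_closure (by rw [Finset.coe_insert]; exact Set.subset_insert _ _) he
  refine ⟨univ.filter (fun e => e ∈ N1.closure ((insert a1 G : Finset E) : Set E)),
    univ.filter (fun e => e ∈ N1.closure ((insert a2 G : Finset E) : Set E)),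
    univ.filter (fun e => e ∈ N2.closure ((insert a1 G : Finset E) : Set E)),
    univ.filter (fun e => e ∈ N2.closure ((insert a2 G : Finset E) : Set E)),
    sub1 N1 hN1 a1, sub1 N1 hN1 a2, sub1 N2 hN2 a1, sub1 N2 hN2 a2,
    fun B hB hBc => dep_of_subset (cG a1 i11.2) hB hBc,
    fun B hB hBc => dep_of_subset (cG a2 i12.2) hB hBc,
    fun B hB hBc => dep_of_subset (cG a1 i11.2) hB hBc,
    fun B hB hBc => dep_of_subset (cG a2 i12.2) hB hBc, ?_⟩
  intro e
  simp only [Finset.mem_filter, Finset.mem_univ, true_and]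
  by_cases q1 : e ∈ N1.closure ((insert a1 G : Finset E) : Set E) ∨
      e ∈ N1.closure ((insert a2 G : Finset E) : Set E)
  · by_cases q2 : e ∈ N2.closure ((insert a1 G : Finset E) : Set E) ∨
      e ∈ N2.closure ((insert a2 G : Finset E) : Set E)
    · exact Or.inr (Or.inr ⟨q1, q2⟩)
    · have q3 := both.2 e (fun h => q2 (Or.inl h)) (fun h => q2 (Or.inr h))
      exact Or.inl ⟨up N1 a1 e q3, up N1 a2 e q3⟩
  · have q3 := both.1 e (fun h => q1 (Or.inl h)) (fun h => q1 (Or.inr h))
    exact Or.inr (Or.inl ⟨up N2 a1 e q3, up N2 a2 e q3⟩)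

end Pool.Agent.CntH10
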